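import Pool.Agent.U231.FR.NcAll

/-!
# The noncommutative standard conjecture D and products with varieties of Fermat type

Let `κ` be a finite field with `q` elements, of characteristic `p`, and `𝒱` a class of smooth projective
varieties over `κ`, closed under products, with Chow groups `A` with rational coefficients and a Weil
cohomology theory `H` (framework of helper492 and helper484: `TheoryData`, `IsChow`, `IsWeil`). Let `X_i` be
varieties in `𝒱` **of Fermat type** of different prime degrees `N_i` and of lengths at most `s_i`
(`IsFermatType`): the cohomology of `X_i` is generated by the classes of cycles and a subspace `T_i`, stable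
under the Frobenius, such that each eigenvalue of the Frobenius on `T_i` is, up to a root of unity and a
power of `q`, a product `∏_{a ∈ A} g(θ ^ a)` of at most `s_i` Gauss sums over `κ`, where `θ` is a
multiplicative character of `κ` of order `N_i`, and where the multiset `A + p A + ⋯ + p ^ (f - 1) A`, `f` the
order of `p` modulo `N_i`, is not symmetric, i.e. not invariant under `a ↦ -a`.

By the theorem of Weil the diagonal hypersurfaces `∑ c_j x_j ^ N = 0` of dimension `n` over `κ` (for
`q ≡ 1` modulo `N`) and their powers and products are of this form with `s = n + 2` (for products: the sum
of these numbers), if the classes with symmetric `A + p A + ⋯` are algebraic. For `p ≡ 1` modulo `N` the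
condition on the multiset is that `A` is not symmetric, and **the algebraicity for symmetric `A` is known**
for `c_j = 1`, and in general after a finite extension of `κ` (linear subspaces, Ran, Shioda and Katsura).

Let `Z` be **any** variety in `𝒱`, let `B` be the set of the eigenvalues `β` of the Frobenius on
`H(Z)`, and suppose that they are algebraic (theorem of Deligne). Let `f_i` be the order of `p` modulo
`N_i`. Suppose that for all `β` in `B` and all `i` there is an `m > 0` such that (`IsSmallBase`, `IsFermatBase`)

* the field `F = ℚ(β ^ m) ∩ ℚ(ζ_{N_i})`, `ζ_N` a root of unity of order `N`, is real (equivalently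
  `(N_i - 1) / [F : ℚ]` is even); for instance `N_i` is odd and unramified in the field `ℚ(β ^ m)`;
* or `N_i > s_i f_i [F : ℚ] + 1`; or `N_i = 2`.

**So the theorem applies to all prime numbers `N_i` with finitely many exceptions, which depend only on
the fields `ℚ(β)`. For the other primes there is no condition at all on the `X_i`: they may be of any
dimension and products of any number of factors, and `s_i` and `f_i` are arbitrary.**

Let `𝒜` be a smooth proper dg category whose noncommutative motive with rational coefficients is a
direct summand of the one of `Z`, for instance the category of perfect complexes on `Z`, or a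
component of a semi-orthogonal decomposition of it. It is given by an idempotent `e` in the ring
`K_0(Z × Z)_ℚ`, which is identified with `CH(Z × Z)_ℚ` (all degrees together) by the Chern
character multiplied by the square root of the Todd class. Let `X_L` be the product of the `X_i` for
`i` in a finite set `L`. The noncommutative motive of the dg category `perf(X_L) ⊗ 𝒜` is
`(X_L × Z, 1 × e)` (`productOf X Z L`, `relativeOf X e L`); and
`TP(𝒜)` is the direct summand cut out by `e` of the crystalline cohomology of `Z`.

**Theorem.** Under these hypotheses
* **the noncommutative standard conjecture of type D for `perf(X_L) ⊗ 𝒜` is equivalent to the one for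
  `𝒜`**, for all `𝒜`;
* for `i` not in `L` there are finitely many algebraic cycles `D j` on `X_i`, the same for all `𝒜`, with
  `K_0(perf(X_i × X_L) ⊗ 𝒜)_ℚ = ⨁ D j × K_0(perf(X_L) ⊗ 𝒜)_ℚ` modulo homological equivalence, and
  the same for the numerically trivial classes (the kernels of the Euler pairings).

No case of the conjectures of Tate and Grothendieck is assumed, and no motive is assumed to be
finite-dimensional. So the conjecture holds for example if `Z` is a point or a surface.

For example the `X_i` may be the diagonal hypersurfaces `∑ x_j ^ N_i = 0`, of any dimensions `n_i`, of
different odd prime degrees `N_i` dividing `p - 1`, and `Z` a curve or an abelian variety, if the `N_i` are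
unramified in the fields of the eigenvalues of Frobenius on the cohomology of `Z`.

The earlier results for this problem are about abelian varieties `A` and dg categories
`perf(A) ⊗ 𝒜`. The varieties of Fermat type are of a different kind: their cohomology is in arbitrary
degrees, the primitive part of a diagonal hypersurface of prime degree `N` decomposes in many pieces
of rank `(N - 1) / f`, among them pieces of very small level, and there is no exceptional set.

The proof. Let `α_i` be eigenvalues of the Frobenius on the `T_i`, for `i` in a nonempty set `I`, and
suppose that `β ∏ α_i` is a power of `q` up to a root of unity. By the theorem of Stickelberger for the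
conjugates of Gauss sums the function `t ↦ ∑_{x ∈ A + p A + ⋯} saw(t x)` on `(ℤ/N_i)ˣ` is invariant
under the subgroup with the fixed field `F`. The values `L(1, χ)` are not zero, so the
sawtooth functions `t ↦ saw(t x)` are independent up to the sign of `x`, and the odd part of the
multiplicity function of `A + p A + ⋯` is invariant under this subgroup and not zero. So `-1` is not
in the subgroup (`F` is not real), and the support of `A + p A + ⋯` contains a coset of it: at least
`(N_i - 1) / [F : ℚ]` elements, but at most `s_i f_i`, a contradiction
(`U231/FF`, as in my hand-ins `FermatFactors` for other conjectures, see the claim file).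
Let `P` be the projector given by the `D j` and dual classes. It is the identity on all eigenspaces
of the Frobenius for the eigenvalues `q ^ n` in the cohomology of `X_i × V`, so on the classes of
cycles; and `P` commutes with `1 × e`, although `e` is not homogeneous.

helper231 (`Pool/Agent/U231/FF`, `U231/FR`); the projectors of the proof are from the library of helper876
(`N876/CG`), and the part on noncommutative motives is from the library of helper484 (`W484/CK`), built on
helpers 492 and 550.
-/

set_option autoImplicit false

open Polynomial CategoryTheory AlgebraicGeometry

namespace Pool.Agent.Results.MP_28af06_ag.FermatFactors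

open Pool.Agent.H914 Pool.Agent.H914.VarClass Pool.Agent.H914.VarClass.Obj Pool.Agent.W492.BB
  Pool.Agent.W484.CK Pool.Agent.U231.FF Pool.Agent.U231.FR.Base Pool.Agent.U231.FR.Nc

/-- **The noncommutative standard conjecture D for products with varieties of Fermat type of different prime
degrees.** -/
theorem result (p : ℕ) [Fact p.Prime] (κ : Type) [Field κ] [Fintype κ] [CharP κ p] {ι : Type}
    (N s : ι → ℕ) {𝒱 : VarClass κ} (A : TheoryData.{0, 0, 0} 𝒱 ℚ) [IsChow A]
    (hI : IsoInvariant A) {K : Type} [Field K] [IsAlgClosed K] [CharZero K]
    (H : WeilTheoryData.{0, 0, 0} A K) [IsWeil H] (τ : K →+* ℂ) (F : ∀ X : 𝒱.Obj, X ⟶ X)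
    (X : ι → 𝒱.Obj) (Z : 𝒱.Obj) (h : IsFermatBase p N s H τ F X Z) :
    (∀ L : List ι, L.Nodup →
      (∀ e : A.A (Z.prod Z), IsIdempotent A e →
        (HomEqNum H (relativeOf X e L) ↔ HomEqNum H e)) ∧
      ∀ i, i ∉ L → ∃ (J : Type) (_ : Fintype J) (deg : J → ℕ) (D : J → A.A (X i)),
        (∀ j, A.Deg (deg j) (D j)) ∧ ∀ e : A.A (Z.prod Z), IsIdempotent A e →
          HomKunneth H (X i) (relativeOf X e L) D) ∧
    -- the degree in the condition on `Z` is at most the degree of `β`
    (∀ (n : ℕ) (β : ℂ), IsAlgebraic ℚ β → commonDegree n β ≤ (minpoly ℚ β).natDegree) :=
  ⟨fun _ hL => homNumAll h hI hL, fun _ _ hβ => commonDegree_le hβ⟩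

end Pool.Agent.Results.MP_28af06_ag.FermatFactors
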