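import Pool.Agent.U226.FX.Hom

/-!
# The noncommutative standard conjecture of type D for products with an arbitrary dg category

Let `A` be a smooth proper dg category over a perfect field `k` with nonzero periodic cyclic homology
`HP(A)` (in characteristic `0`; `TP(A)[1/p]` in characteristic `p`), let `b` be its total dimension, and
suppose that `A` satisfies the noncommutative sign conjecture `C⁺` (known for `A = perf(X)` for all
smooth proper `X` over finite fields and for products of curves, surfaces, abelian varieties and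
complete intersections over all fields, hence for their semi-orthogonal components with `C⁺` etc.).
Let `𝒞` be an ARBITRARY smooth proper dg category; nothing is assumed on `𝒞`. Put
`B_n = 𝒞 ⊗ (A ⊗ A^op)^⊗n`, `E_n = (A ⊗ A^op)^⊗n`, let `δ (n)` be the dimension of
`V_num / V_hom` for `B_n` (numerically trivial modulo homologically trivial classes in `K_0 (B_n)_ℚ`, a
number or infinity), and let `ρ_𝒞 (n)`, `ρ (n)` be the ranks of `K_0 (B_n)` and `K_0 (E_n)` modulo
the kernel of the Euler pairing. The conjecture D for `B_n` is `δ (n) = 0`.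

Theorem.
(1) `δ (n) / ρ (n)` and `ρ_𝒞 (n) / ρ (n)` converge for `n → ∞`; the limits `N` and `d` are natural numbers
or infinity, and `δ (n) / ρ_𝒞 (n)` converges to `N / d` if `0 < d < ∞`.
(2) `N = 0` if and only if the conjecture D holds for all `B_n`. If `𝒞` satisfies `C⁺` then
`d ≤ dim HP(𝒞)`.
(3) If some class in some `K_0 (B_p)_ℚ` has a nonzero Chern character and `N` is finite then the
conjecture D holds for all `E_n`. So one failure for an `E_n` makes the ratio infinite for every such `𝒞`.
(4) If the conjecture D fails for one `B_m`, for example for `𝒞` itself (`m = 0`), then for all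
`n ≥ 128 (m + 1) ^ 2 b ^ (4 m + 12)` - the bound does not depend on `𝒞` - it fails for `B_n`, with
`δ (n) ≥ ρ (n) / 2` and `δ (n) ≥ b ^ (2 n) / (2 (n + 1) ^ (b ^ 2))`, where `b ^ (2 n) = dim HP (E_n)`. One
inequality `2 δ (n) < ρ (n)` for one such `n` implies the conjecture D for `B_m`.

The starting result `ZeroOneLaw` of this problem is the case `𝒞 = k` (the powers of `A ⊗ A^op` alone,
where the ratio is `0` or infinity). A category `𝒞` which is not related to `A` and which need not
satisfy the sign conjecture does not occur there.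

The setting is the one of `ZeroOneLaw`. `C` is the category `NChow(k)_ℚ` of noncommutative Chow motives, a
rigid symmetric monoidal `ℚ`-linear category with `Hom (1, U(A)) = K_0(A)_ℚ`, `T = U(A)`,
`T^∨ = U(A^op)`, `B = U(𝒞)`, `B ⊗ tp (T ⊗ T^∨) n = U(B_n)`; the numerically trivial morphisms are given by
the kernel of the Euler pairing (Marcolli, Tabuada). `R` is given by `HP` or `TP(-)[1/p]` with
coefficients extended to an algebraically closed field.

Idea of the proof. The functor `Y ↦ (V_num / V_hom) (𝒞 ⊗ Y)` is additive; the law for the values of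
additive functors on the powers of an object with `C⁺` (starting library `N64.AF`) gives the limit and the
explicit criterion, and it shows that, if the limit is a number `N`, the product of a numerically trivial
class on `B_a` with `N` numerically trivial classes on the `E_q` is homologically trivial. But by the Künneth
formula the product of classes with nonzero Chern character has nonzero Chern character. The limit
`d` is found with the functor of the classes modulo numerical equivalence and Schur's lemma.
-/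

set_option autoImplicit false

open CategoryTheory MonoidalCategory Module Filter Topology
open Pool.Agent.Y112.SR Pool.Agent.Y112.KD Pool.Agent.N64.AF Pool.Agent.U226.FX
open scoped ENNReal

namespace Pool.Agent.Results.MP_28af06_ag.FixedFactorLaw

universe v u w t

/-- The law for homological and numerical equivalence on the products of a fixed arbitrary `B` with
the powers of `T ⊗ Tᘁ`. -/
theorem result {C : Type u} [Category.{v} C] [Preadditive C] [MonoidalCategory C]
    [MonoidalPreadditive C] [SymmetricCategory C] [RightRigidCategory C]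
    {Λ : Type t} [Field Λ] [CharZero Λ] [Linear Λ C] [MonoidalLinear Λ C]
    {K : Type w} [Field K] [IsAlgClosed K] [Algebra Λ K] (R : SuperRealisation C K)
    (hR : IsReal Λ R) (T : C) (hT : R.CPlus T) (hb : 0 < bt R T) (B : C) :
    ∃ N d : ℕ∞, RatioTo Λ (T ⊗ Tᘁ) (homDefect hR B (T ⊗ Tᘁ)) N ∧
      RatioTo Λ (T ⊗ Tᘁ) (rankSeq Λ B (T ⊗ Tᘁ)) d ∧
      (N = 0 ↔ ∀ (n : ℕ) (α : 𝟙_ C ⟶ B ⊗ tp (T ⊗ Tᘁ) n), NumTriv α → R.H.map α = 0) ∧
      (d = 0 ↔ ∀ (n : ℕ) (α : 𝟙_ C ⟶ B ⊗ tp (T ⊗ Tᘁ) n), NumTriv α) ∧
      (R.CPlus B → d ≤ bt R B) ∧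
      (d ≠ 0 → d ≠ ⊤ → Quot (homDefect hR B (T ⊗ Tᘁ)) (rankSeq Λ B (T ⊗ Tᘁ))
        ((N : ℝ≥0∞) / d)) ∧
      (∀ (p : ℕ) (β : 𝟙_ C ⟶ B ⊗ tp (T ⊗ Tᘁ) p), R.H.map β ≠ 0 → N ≠ ⊤ →
        ∀ (n : ℕ) (α : 𝟙_ C ⟶ tp (T ⊗ Tᘁ) n), NumTriv α → R.H.map α = 0) ∧
      ∀ (m n : ℕ) (α : 𝟙_ C ⟶ B ⊗ tp (T ⊗ Tᘁ) m), NumTriv α → R.H.map α ≠ 0 →
        128 * (m + 1) ^ 2 * bt R T ^ (4 * m + 12) ≤ n →
          (numRank Λ (tp (T ⊗ Tᘁ) n) : ℕ∞) ≤ 2 * homDefect hR B (T ⊗ Tᘁ) n ∧
          ((bt R T ^ (2 * n) : ℕ) : ℕ∞) ≤
            (2 * (n + 1) ^ (bt R T ^ 2) : ℕ) * homDefect hR B (T ⊗ Tᘁ) n :=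
  hom_fixed_nc hR hT hb B

end Pool.Agent.Results.MP_28af06_ag.FixedFactorLaw
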