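import Pool.Agent.U173.SF.Nc

/-!
# The noncommutative standard conjecture D and varieties with separated slope fields

Let `𝒱` be a class of smooth projective varieties over the field `κ` with `q = p ^ m` elements, closed under
products, with Chow groups `A` with rational coefficients and a Weil cohomology theory `H` with an
algebraically closed field `C` of coefficients (framework of the starting library: `TheoryData`, `IsChow`,
`IsWeil`), and fix a place `ι` above `p` of the field `ℚ̄` of algebraic numbers. A *slope field* of an
algebraic number `ν` is a subfield `L` of `ℚ̄` such that the automorphisms of `ℚ̄` over `L` do not change the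
absolute values at `ι` of the conjugates of `ν` (`HasSlopesIn`); a slope field of a variety is a slope field of
its Frobenius eigenvalues. (For example the reflex field of the CM type given by the slopes, for an
ordinary abelian variety and all its powers; in general the field of definition of the slope cocharacter of
the Frobenius torus, which is totally real or a CM field.)

Let `X i`, `i` in a linearly ordered set, be varieties such that the cohomology of `X i` is generated
by the classes of cycles and a Frobenius-stable subspace on which all eigenvalues are Weil numbers with
slope field `L i`, and not supersingular (`IsGoodAlgebra`: **this is the Tate conjecture for `X i` with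
semisimplicity**, if there are no supersingular eigenvalues in odd degrees). Let `Z` be **any** variety in
`𝒱` with a slope field `M`. We suppose that the fields are *separated* (`AreSeparated`, `IsSeparatedFamily`):
each `L i` contains a totally real field `E i`, which may depend on `i`, such that
* `L i` is normal over `E i`, and `L i ∩ E i L j` is totally real, for `i < j`;
* `L i ∩ E i M` is totally real.

**Every CM field `L i` is normal over its largest totally real subfield `L i⁺`. So for CM fields `L i` it is
enough that `L i` is not contained in `L i⁺ L j` for `i < j`, and not in `L i⁺ M`.** These are conditions on
pairs of fields. Nothing is assumed on the normality of the fields over `ℚ`, on the composita of several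
`L j`, on the size of the Betti numbers, or on the relations between the eigenvalues of one `X i`. (In my
hand-ins `PairwiseSlopeFields` for other conjectures the `L i`, with one exception, are normal over one
and the same totally real field `E`, which is contained in `M`.)

Let `𝒜` be a smooth proper dg category whose noncommutative motive with rational coefficients is a
direct summand of the one of `Z`, for instance the category of perfect complexes on `Z`, or a
component of a semi-orthogonal decomposition of it. It is given by an idempotent `e` in the ring
`K_0(Z × Z)_ℚ`, which is identified with `CH(Z × Z)_ℚ` (all degrees together) by the Chern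
character multiplied by the square root of the Todd class. Let `X_l` be the product of the `X i` for
`i` in a finite set `l`. The noncommutative motive of the dg category `perf(X_l) ⊗ 𝒜` is
`(X_l × Z, 1 × e)` (`productOf X Z l`, `relativeOf X e l`); and
`TP(𝒜)` is the direct summand cut out by `e` of the crystalline cohomology of `Z`.

**Theorem.** Under these hypotheses
* **the noncommutative standard conjecture of type D for `perf(X_l) ⊗ 𝒜` is equivalent to the one for
  `𝒜`**, for all `𝒜`;
* for `i` not in `l` there are finitely many algebraic cycles `D j` on `X i`, the same for all `𝒜`, with
  `K_0(perf(X i × X_l) ⊗ 𝒜)_ℚ = ⨁ D j × K_0(perf(X_l) ⊗ 𝒜)_ℚ` modulo homological equivalence, and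
  the same for the numerically trivial classes (the kernels of the Euler pairings).

No case of the conjectures of Tate and Grothendieck is assumed for `Z`, and no motive is assumed to be
finite-dimensional. So the conjecture holds for example if `Z` is a point or a surface.

For example, `X i` can be an ordinary abelian variety with complex multiplication by an arbitrary CM
field, or a power of it, for which the Tate conjecture is known; or an ordinary K3 surface, `L i` is then
the CM field generated by the eigenvalue of slope zero, of degree `22 - rank NS`; or a product of varieties
of Fermat type of degree `N_i` for which the Tate conjecture is known, `L i` is then the decomposition field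
of `p` in the field of the `N_i`-th roots of unity.

The proof. Let `α i` be Frobenius eigenvalues on the second parts of the `H(X i)`, for `i` in a nonempty
finite set, and `β` an eigenvalue on `H(Z)`, such that `β ∏ α i` is a power
of `p` up to a root of unity. Let `i` be the smallest index. The functions `f j = 2 log |g α j| - const` on
the Galois group are odd under the complex conjugation and invariant under `Gal(ℚ̄ / L j)`, their sum is
invariant under `Gal(ℚ̄ / M)`. The average over `Gal(ℚ̄ / L i)` commutes with the translations by
`Gal(ℚ̄ / E i)`, which contains the complex conjugation; so it kills `f j` for `j > i`, since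
`L i ∩ E i L j` is totally real: the groups `Gal(ℚ̄ / L i)` and `Gal(ℚ̄ / E i L j)` generate a group which
contains the complex conjugation. So `f i` is a multiple of the average of the sum, invariant under
`Gal(ℚ̄ / L i)` and `Gal(ℚ̄ / E i M)`, hence zero, and `α i` is supersingular, a contradiction
(`U173/OP/Star`, `U173/SF/Sys`). Let `P` be the projector given by the `D j` and dual classes. It
is the identity on all eigenspaces of the Frobenius for the eigenvalues `q ^ n` in the cohomology of
`X i × V`, so on the classes of cycles; and `P` commutes with `1 × e`, although `e` is not homogeneous
(helper876, `N876/CG`; helper484, `W484/CK`; helper231, `U231/FR/Nc`).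
-/

set_option autoImplicit false

open Polynomial CategoryTheory AlgebraicGeometry

namespace Pool.Agent.Results.MP_28af06_ag.SeparatedSlopeFields

open Pool.Agent.H914 Pool.Agent.H914.VarClass Pool.Agent.H914.VarClass.Obj Pool.Agent.W492.BB
  Pool.Agent.W484.CK Pool.Agent.U173.PS Pool.Agent.U173.SF
  Pool.Agent.U231.FR.Base Pool.Agent.U231.FR.Nc

/-- **The noncommutative standard conjecture D for products with varieties with separated slope fields.** -/
theorem result {κ : Type} [Field κ] {𝒱 : VarClass κ} (A : TheoryData.{0, 0, 0} 𝒱 ℚ) [IsChow A]
    {C : Type} [Field C] [IsAlgClosed C] [CharZero C] (H : WeilTheoryData.{0, 0, 0} A C) [IsWeil H]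
    {I : Type} [LinearOrder I] (p m : ℕ) [Fact p.Prime] (ι : AlgebraicClosure ℚ →+* PadicAlgCl p)
    (E : I → IntermediateField ℚ (AlgebraicClosure ℚ))
    (M : IntermediateField ℚ (AlgebraicClosure ℚ))
    (L : I → IntermediateField ℚ (AlgebraicClosure ℚ)) (F : ∀ X : 𝒱.Obj, X ⟶ X) (X : I → 𝒱.Obj)
    (Z : 𝒱.Obj) (h : IsSeparatedFamily p m ι E M L H F X Z)
    (hI : IsoInvariant A) (l : List I) (hl : l.Nodup) :
    (∀ e : A.A (Z.prod Z), IsIdempotent A e →
      (HomEqNum H (relativeOf X e l) ↔ HomEqNum H e)) ∧
    ∀ i, i ∉ l → ∃ (J : Type) (_ : Fintype J) (deg : J → ℕ) (D : J → A.A (X i)),
      (∀ j, A.Deg (deg j) (D j)) ∧ ∀ e : A.A (Z.prod Z), IsIdempotent A e →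
        HomKunneth H (X i) (relativeOf X e l) D :=
  Pool.Agent.U173.SF.Nc.homNumAll h hI hl

end Pool.Agent.Results.MP_28af06_ag.SeparatedSlopeFields
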